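import Pool.Agent.Helper48.RS.SIG4

set_option autoImplicit false

namespace Pool.Agent.Helper48.RS

open NumberField Polynomial Module IsDedekindDomain Pool.Agent.Helper51.SigLeo
  Pool.Agent.Helper38.RS Filter Topology

attribute [local instance] zmod2

section

variable {k : Type} [NormedField k] [NormedAlgebra ℚ_[2] k] {K M : Type} [Field K] [Field M]
  [Algebra K M]

/-- the action of `δ^j` on `Mˣ` -/
def act (δ : M ≃ₐ[K] M) (j : ℕ) (x : Mˣ) : Mˣ :=
  Units.map (((δ ^ j : M ≃ₐ[K] M) : M →+* M) : M →* M) x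

/-- the operator of `δ` over `ℤ_2` -/
noncomputable def Dz (T : Set (K →+* k)) (δ : M ≃ₐ[K] M) :
    (↥(above T : Set (M →+* k)) → k) →ₗ[ℤ_[2]] (↥(above T : Set (M →+* k)) → k) where
  toFun := fun f τ => f (sh T δ τ)
  map_add' := fun _ _ => rfl
  map_smul' := fun _ _ => rfl

theorem Dz_iter (T : Set (K →+* k)) (δ : M ≃ₐ[K] M) (j : ℕ)
    (f : ↥(above T : Set (M →+* k)) → k) : (Dz T δ)^[j] f = fun τ => f ((sh T δ)^[j] τ) := by
  induction j generalizing f with
  | zero => rfl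
  | succ j ih =>
    rw [Function.iterate_succ_apply, ih]
    funext τ
    change f (sh T δ ((sh T δ)^[j] τ)) = _
    rw [← Function.iterate_succ_apply' (sh T δ) j τ]

theorem sh_iter (T : Set (K →+* k)) (δ : M ≃ₐ[K] M) (j : ℕ)
    (τ : ↥(above T : Set (M →+* k))) (x : M) : ((sh T δ)^[j] τ).1 x = τ.1 ((δ ^ j) x) := by
  induction j generalizing x with
  | zero => simp
  | succ j ih =>
    rw [Function.iterate_succ_apply']
    change ((sh T δ)^[j] τ).1 (δ x) = _
    rw [ih, pow_succ, AlgEquiv.mul_apply]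

theorem act_mem (T : Set (K →+* k)) (δ : M ≃ₐ[K] M) (j : ℕ) (x : Mˣ)
    (hx : x ∈ XX (above T : Set (M →+* k))) : act δ j x ∈ XX (above T : Set (M →+* k)) := by
  intro τ hτ
  have h1 : ‖((sh T δ)^[j] ⟨τ, hτ⟩).1 (x : M)‖ = 1 := hx _ ((sh T δ)^[j] ⟨τ, hτ⟩).2
  rw [sh_iter] at h1
  exact h1

theorem ell_act (L : IwasawaLog 2 k) (T : Set (K →+* k)) (δ : M ≃ₐ[K] M) (j : ℕ) (x : Mˣ) :
    ell L (above T) (Additive.ofMul (act δ j x)) =
      (Dz T δ)^[j] (ell L (above T) (Additive.ofMul x)) := by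
  rw [Dz_iter]
  funext τ
  rw [ell_apply, ell_apply]
  congr 1
  ext
  change τ.1 ((δ ^ j) (x : M)) = ((sh T δ)^[j] τ).1 (x : M)
  rw [sh_iter]

theorem pol_eq (P : (ZMod 2)[X]) (δ : M ≃ₐ[K] M) (x : Mˣ) :
    pol P δ x = ∏ j ∈ P.support, act δ j x := by
  rw [pol, MonoidHom.finsetProd_apply]
  rfl

theorem pol_mem (T : Set (K →+* k)) (P : (ZMod 2)[X]) (δ : M ≃ₐ[K] M) (x : Mˣ)
    (hx : x ∈ XX (above T : Set (M →+* k))) : pol P δ x ∈ XX (above T : Set (M →+* k)) := by
  rw [pol_eq]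
  exact Subgroup.prod_mem _ fun j _ => act_mem T δ j x hx

theorem ell_pol (L : IwasawaLog 2 k) (T : Set (K →+* k)) (P : (ZMod 2)[X]) (δ : M ≃ₐ[K] M)
    (x : Mˣ) :
    ell L (above T) (Additive.ofMul (pol P δ x)) =
      ∑ j ∈ P.support, (Dz T δ)^[j] (ell L (above T) (Additive.ofMul x)) := by
  rw [pol_eq, ofMul_prod, map_sum]
  exact Finset.sum_congr rfl fun j _ => ell_act L T δ j x

theorem Dz_Lam (L : IwasawaLog 2 k) (T : Set (K →+* k)) (δ : M ≃ₐ[K] M) :
    ∀ w ∈ Lam L (above T : Set (M →+* k)), Dz T δ w ∈ Lam L (above T : Set (M →+* k)) := by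
  have h : Lam L (above T : Set (M →+* k)) ≤ (Lam L (above T : Set (M →+* k))).comap (Dz T δ) := by
    rw [Lam, Submodule.span_le]
    rintro _ ⟨x, hx, rfl⟩
    have h1 := ell_act L T δ 1 x
    rw [Function.iterate_one] at h1
    change Dz T δ (ell L (above T) (Additive.ofMul x)) ∈ Lam L (above T : Set (M →+* k))
    rw [← h1]
    exact ell_mem_Lam L _ _ (act_mem T δ 1 x hx)
  exact h

end

theorem s_sig (h1 : S_LAT) : S_SIG := by
  classical
  intro k _ _ _ _ hι L K M _ _ _ _ _ _ m δ ζ Φ P hP hm _ T _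
  have : CharZero k := charZero_of_injective_algebraMap (algebraMap ℚ_[2] k).injective
  have : Fintype (above T : Set (M →+* k)) := Fintype.ofFinite _
  have hm0 : 0 < m := by have := hP.one_lt; omega
  have hδm : δ ^ m = 1 := by rw [← hm]; exact pow_orderOf_eq_one δ
  set T' : Set (M →+* k) := above T with hT'
  -- the lattice is finitely generated
  have hfg : (Lam L T').FG := by
    obtain ⟨C, hC⟩ := ell_XX L T'
    have := WW_fd T'
    refine fg_of_bounded T' (WW T') _ C ?_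
    rintro _ ⟨x, hx, rfl⟩
    exact hC x hx
  have hfin : Module.Finite ℤ_[2] (Lam L T') := Module.Finite.iff_fg.2 hfg
  have htf : Module.IsTorsionFree ℤ_[2] (T' → k) := by
    refine ⟨fun c hc f g hfg => ?_⟩
    have hc0 : ((c : ℤ_[2]) : ℚ_[2]) ≠ 0 := by
      intro h0
      exact hc.ne_zero (Subtype.ext h0)
    have h2 : ((c : ℤ_[2]) : ℚ_[2]) • f = ((c : ℤ_[2]) : ℚ_[2]) • g := hfg
    exact smul_right_injective _ hc0 h2
  have hfree : Module.Free ℤ_[2] (Lam L T') := inferInstance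
  -- the operator on the lattice
  let D : (Lam L T') →ₗ[ℤ_[2]] (Lam L T') := (Dz T δ).restrict (Dz_Lam L T δ)
  have hDcoe : ∀ (j : ℕ) (x : Lam L T'), ((D^[j] x : Lam L T') : T' → k) = (Dz T δ)^[j] (x : T' → k) := by
    intro j
    induction j with
    | zero => intro x; rfl
    | succ j ih =>
      intro x
      rw [Function.iterate_succ_apply, Function.iterate_succ_apply, ih]
      rfl
  have hDm : ∀ x, D^[m] x = x := by
    intro x
    apply Subtype.ext
    rw [hDcoe, Dz_iter]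
    funext τ
    have h2 : (sh T δ)^[m] τ = τ := by
      apply Subtype.ext
      ext y
      rw [sh_iter, hδm]
      rfl
    rw [h2]
  have hspan : Submodule.span k (Set.range ((Lam L T').subtype.toAddMonoidHom)) = ⊤ := by
    rw [eq_top_iff, ← span_ell L T']
    refine Submodule.span_mono ?_
    rintro _ ⟨x, hx, rfl⟩
    exact ⟨⟨_, ell_mem_Lam L T' x hx⟩, rfl⟩
  have heig := finrank_eig hι T δ m hm hm0 ζ hP.prim.pow_eq_one
  obtain ⟨F, hFcard, hFP, hFne⟩ := h1 k m ζ Φ P hP (Lam L T') D hDm (T' → k) (Dk T δ)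
    ((Lam L T').subtype.toAddMonoidHom) (fun x => rfl) (fun c x => by
      funext τ
      change (c : ℚ_[2]) • (x : T' → k) τ = algebraMap ℚ_[2] k (c : ℚ_[2]) • (x : T' → k) τ
      rw [algebraMap_smul]) hspan T.ncard heig
  -- lifting to units
  choose z hz w hw hzw using fun v : Lam L T' => mod_two_Lam L T' v v.2
  have hinj : Set.InjOn z (F : Set (Lam L T')) := by
    intro a ha b hb hab
    by_contra hne
    refine hFne a ha b hb hne ⟨⟨w a, hw a⟩ - ⟨w b, hw b⟩, ?_⟩
    apply Subtype.ext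
    change (a : T' → k) = (b : T' → k) + (2 : ℤ_[2]) • (w a - w b)
    rw [smul_sub]
    have ha := hzw a
    have hb := hzw b
    rw [hab] at ha
    rw [ha]
    conv_rhs => rw [hb]
    abel
  refine ⟨F.image z, ?_, ?_, ?_, ?_⟩
  · rw [Finset.card_image_of_injOn hinj, hFcard]
  · intro x hx
    obtain ⟨v, hv, rfl⟩ := Finset.mem_image.1 hx
    exact hz v
  · intro x hx
    obtain ⟨v, hv, rfl⟩ := Finset.mem_image.1 hx
    obtain ⟨b, hb⟩ := hFP v hv
    have h2 := congrArg (fun y : Lam L T' => (y : T' → k)) hb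
    have h3 : ∑ i ∈ P.support, (Dz T δ)^[i] (v : T' → k) = (2 : ℤ_[2]) • (b : T' → k) := by
      have h4 : ((∑ i ∈ P.support, D^[i] v : Lam L T') : T' → k) =
          ∑ i ∈ P.support, (Dz T δ)^[i] (v : T' → k) := by
        rw [Submodule.coe_sum]
        exact Finset.sum_congr rfl fun i _ => hDcoe i v
      rw [← h4]
      exact h2
    have hadd : ∀ (j : ℕ) (f g : T' → k), (Dz T δ)^[j] (f + g) = (Dz T δ)^[j] f + (Dz T δ)^[j] g := by
      intro j f g
      simp only [Dz_iter]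
      rfl
    have hsm : ∀ (j : ℕ) (f : T' → k), (Dz T δ)^[j] ((2 : ℤ_[2]) • f) = (2 : ℤ_[2]) • (Dz T δ)^[j] f := by
      intro j f
      simp only [Dz_iter]
      rfl
    have hmemw : ∀ j, (Dz T δ)^[j] (w v) ∈ Lam L T' := by
      intro j
      have h5 := (D^[j] ⟨w v, hw v⟩ : Lam L T').2
      rw [hDcoe] at h5
      exact h5
    refine locSig_of L T' (pol P δ (z v)) (pol_mem T P δ (z v) (hz v))
      ((b : T' → k) - ∑ j ∈ P.support, (Dz T δ)^[j] (w v))
      (Submodule.sub_mem _ b.2 (Submodule.sum_mem _ fun j _ => hmemw j)) ?_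
    rw [ell_pol, smul_sub, ← h3, Finset.smul_sum, ← Finset.sum_sub_distrib]
    refine Finset.sum_congr rfl fun j _ => ?_
    have h6 := hzw v
    have h7 : (Dz T δ)^[j] (v : T' → k) = (Dz T δ)^[j] (ell L T' (Additive.ofMul (z v))) +
        (2 : ℤ_[2]) • (Dz T δ)^[j] (w v) := by
      conv_lhs => rw [h6]
      rw [hadd, hsm]
    rw [h7]
    abel
  · intro x hx y hy hxy hloc
    obtain ⟨a, ha, rfl⟩ := Finset.mem_image.1 hx
    obtain ⟨b, hb, rfl⟩ := Finset.mem_image.1 hy
    have hab : a ≠ b := fun h => hxy (by rw [h])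
    obtain ⟨u, hu, hu2⟩ := of_locSig L T' hfg (z a / z b) ((XX T').div_mem (hz a) (hz b)) hloc
    refine hFne a ha b hb hab ⟨⟨u, hu⟩ + ⟨w a, hw a⟩ - ⟨w b, hw b⟩, ?_⟩
    apply Subtype.ext
    change (a : T' → k) = (b : T' → k) + (2 : ℤ_[2]) • (u + w a - w b)
    rw [ofMul_div, map_sub] at hu2
    have h2 : ell L T' (Additive.ofMul (z a)) = ell L T' (Additive.ofMul (z b)) + (2 : ℤ_[2]) • u := by
      rw [← hu2]; abel
    have h3 := hzw a
    have h4 := hzw b
    rw [h2] at h3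
    rw [h3]
    conv_rhs => rw [h4]
    rw [smul_sub, smul_add]
    abel

end Pool.Agent.Helper48.RS
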