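import Pool.Agent.Helper38.RS.Goals2

set_option autoImplicit false

namespace Pool.Agent.Helper48.RS

open NumberField Polynomial Module IsDedekindDomain Pool.Agent.Helper51.SigLeo
  Pool.Agent.Helper38.RS Filter Topology

theorem inv_le_norm_nat (n : ℕ) (hn : 0 < n) : 1 ≤ (n : ℝ) * ‖(n : ℚ_[2])‖ := by
  have hne : (n : ℚ_[2]) ≠ 0 := by exact_mod_cast hn.ne'
  have h1 := Padic.norm_eq_zpow_neg_valuation hne
  have h2 : ‖((n : ℤ) : ℚ_[2])‖ ≤ 1 := Padic.norm_int_le_one _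
  have hv : 0 ≤ (n : ℚ_[2]).valuation := by
    rw [← Padic.norm_le_one_iff_val_nonneg]
    simpa using h2
  obtain ⟨v, hv⟩ := Int.eq_ofNat_of_zero_le hv
  rw [hv] at h1
  have h3 : ((2 : ℕ) ^ v : ℤ) ∣ (n : ℤ) := by
    rw [← Padic.norm_int_le_pow_iff_dvd]
    simpa using h1.le
  have h4 : 2 ^ v ≤ n := by
    have : ((2 ^ v : ℕ) : ℤ) ∣ (n : ℤ) := by push_cast; exact_mod_cast h3
    exact Nat.le_of_dvd hn (Int.natCast_dvd_natCast.1 this)
  rw [h1]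
  have h5 : ((2 : ℕ) : ℝ) ^ (-(v : ℤ)) = ((2 : ℝ) ^ v)⁻¹ := by
    rw [zpow_neg, zpow_natCast]; norm_num
  rw [h5]
  have h6 : (2 : ℝ) ^ v ≤ n := by exact_mod_cast h4
  rw [← div_eq_mul_inv, le_div_iff₀ (by positivity), one_mul]
  exact h6

section est

variable {k : Type} [NormedField k] [NormedAlgebra ℚ_[2] k]

theorem norm_nat (n : ℕ) : ‖(n : k)‖ = ‖(n : ℚ_[2])‖ := by
  rw [← map_natCast (algebraMap ℚ_[2] k) n, norm_algebraMap']

theorem norm_inv_nat_le (n : ℕ) (hn : 0 < n) : ‖(n : k)‖⁻¹ ≤ n := by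
  rw [norm_nat]
  have h1 := inv_le_norm_nat n hn
  have h2 : 0 < ‖(n : ℚ_[2])‖ := by
    rw [norm_pos_iff]; exact_mod_cast hn.ne'
  rw [inv_le_iff_one_le_mul₀ h2]
  exact h1

theorem norm_pow_two (n : ℕ) : ‖(2 : k) ^ n‖ = (1 / 2 : ℝ) ^ n := by
  have h1 : (2 : k) = algebraMap ℚ_[2] k (2 : ℚ_[2]) := (map_ofNat (algebraMap ℚ_[2] k) 2).symm
  rw [norm_pow, h1, norm_algebraMap']
  have h2 : ‖((2 : ℕ) : ℚ_[2])‖ = ((2 : ℕ) : ℝ)⁻¹ := Padic.norm_p
  have h3 : ‖(2 : ℚ_[2])‖ = (1 / 2 : ℝ) := by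
    have : ((2 : ℕ) : ℚ_[2]) = 2 := by norm_num
    rw [this] at h2
    rw [h2]; norm_num
  rw [h3]

theorem norm_term_le (t : k) (ht : ‖t‖ ≤ 1 / 4) (i : ℕ) :
    ‖(-1 : k) ^ (i + 1) * t ^ (i + 1 + 1) / ((i + 1 : ℕ) + 1)‖ ≤ 2 * ‖t‖ ^ 2 := by
  have h0 : (((i + 1 : ℕ) : k) + 1) = ((i + 2 : ℕ) : k) := by push_cast; ring
  rw [h0, norm_div, norm_mul, norm_pow, norm_pow, norm_neg, norm_one, one_pow, one_mul,
    div_eq_mul_inv]
  have h1 : ‖((i + 2 : ℕ) : k)‖⁻¹ ≤ ((i + 2 : ℕ) : ℝ) := norm_inv_nat_le _ (by omega)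
  have h2 : ‖t‖ ^ (i + 1 + 1) = ‖t‖ ^ 2 * ‖t‖ ^ i := by rw [← pow_add]; congr 1; omega
  have h3 : ‖t‖ ^ i ≤ (1 / 4 : ℝ) ^ i := pow_le_pow_left₀ (norm_nonneg _) ht i
  have h4 : (1 / 4 : ℝ) ^ i * ((i + 2 : ℕ) : ℝ) ≤ 2 := by
    clear h0 h1 h2 h3
    induction i with
    | zero => norm_num
    | succ i ih =>
      have h5 : (0 : ℝ) < (1 / 4 : ℝ) ^ i := by positivity
      push_cast at ih ⊢
      rw [pow_succ]
      nlinarith
  calc ‖t‖ ^ (i + 1 + 1) * ‖((i + 2 : ℕ) : k)‖⁻¹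
      ≤ (‖t‖ ^ 2 * (1 / 4 : ℝ) ^ i) * ((i + 2 : ℕ) : ℝ) := by
        rw [h2]
        gcongr
    _ = ‖t‖ ^ 2 * ((1 / 4 : ℝ) ^ i * ((i + 2 : ℕ) : ℝ)) := by ring
    _ ≤ ‖t‖ ^ 2 * 2 := by gcongr
    _ = 2 * ‖t‖ ^ 2 := by ring

/-- quadratic estimate for the logarithm -/
theorem log_est [IsUltrametricDist k] (L : IwasawaLog 2 k) (u : kˣ) (h : ‖(u : k) - 1‖ ≤ 1 / 4) :
    ‖L.toFun u - ((u : k) - 1)‖ ≤ 2 * ‖(u : k) - 1‖ ^ 2 := by
  have hs := (L.hasSum u (by linarith)).tendsto_sum_nat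
  set t : k := (u : k) - 1 with ht
  have h1 : Tendsto (fun n => (∑ i ∈ Finset.range (n + 1), (-1 : k) ^ i * t ^ (i + 1) / (i + 1)) - t)
      atTop (𝓝 (L.toFun u - t)) := (((tendsto_add_atTop_iff_nat 1).2 hs).sub_const t)
  refine le_of_tendsto' h1.norm fun n => ?_
  rw [Finset.sum_range_succ']
  have h2 : (-1 : k) ^ 0 * t ^ (0 + 1) / ((0 : ℕ) + 1) = t := by simp
  rw [h2, add_sub_cancel_right]
  refine IsUltrametricDist.norm_sum_le_of_forall_le_of_nonneg (by positivity) fun i _ => ?_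
  exact norm_term_le t h i

theorem log_le [IsUltrametricDist k] (L : IwasawaLog 2 k) (u : kˣ) (h : ‖(u : k) - 1‖ ≤ 1 / 4) :
    ‖L.toFun u‖ ≤ ‖(u : k) - 1‖ := by
  have h1 := log_est L u h
  have h2 : L.toFun u = (L.toFun u - ((u : k) - 1)) + ((u : k) - 1) := by ring
  rw [h2]
  refine (IsUltrametricDist.norm_add_le_max _ _).trans (max_le ?_ le_rfl)
  refine h1.trans ?_
  have h3 := norm_nonneg ((u : k) - 1)
  nlinarith

end est

section ext

variable {k : Type} [NormedField k] [NormedAlgebra ℚ_[2] k]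

/-- every embedding of `K` in `k` extends to `M` -/
theorem exists_ext (h : Nonempty (AlgebraicClosure ℚ →+* k)) (K M : Type) [Field K] [NumberField K]
    [Field M] [NumberField M] [Algebra K M] (σ : K →+* k) :
    ∃ τ : M →+* k, τ.comp (algebraMap K M) = σ := by
  obtain ⟨ι⟩ := h
  have : CharZero k := charZero_of_injective_algebraMap (algebraMap ℚ_[2] k).injective
  let _ := σ.toAlgebra
  have : IsScalarTower ℚ K M := inferInstance
  have key : Nonempty (M →ₐ[K] k) := by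
    apply IntermediateField.nonempty_algHom_of_splits
    intro x
    have hint : IsIntegral ℚ x := Algebra.IsIntegral.isIntegral x
    refine ⟨hint.tower_top, ?_⟩
    have h1 : ((minpoly ℚ x).map (algebraMap ℚ k)).Splits := by
      have h2 : (algebraMap ℚ k) = ι.comp (algebraMap ℚ (AlgebraicClosure ℚ)) :=
        RingHom.ext_rat _ _
      rw [h2, ← Polynomial.map_map]
      exact (IsAlgClosed.splits _).map ι
    have h3 : minpoly K x ∣ (minpoly ℚ x).map (algebraMap ℚ K) := minpoly.dvd_map_of_isScalarTower ℚ K x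
    have h4 : (minpoly K x).map (algebraMap K k) ∣ (minpoly ℚ x).map (algebraMap ℚ k) := by
      have h5 : (algebraMap ℚ k) = (algebraMap K k).comp (algebraMap ℚ K) := RingHom.ext_rat _ _
      rw [h5, ← Polynomial.map_map]
      exact Polynomial.map_dvd _ h3
    refine h1.of_dvd ?_ h4
    exact (Polynomial.map_ne_zero (minpoly.ne_zero hint))
  obtain ⟨φ⟩ := key
  exact ⟨φ.toRingHom, RingHom.ext fun x => φ.commutes x⟩

end ext

end Pool.Agent.Helper48.RS
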