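import Pool.Agent.Helper48.RS.SIG1

set_option autoImplicit false

namespace Pool.Agent.Helper48.RS

open NumberField Polynomial Module IsDedekindDomain Pool.Agent.Helper51.SigLeo
  Pool.Agent.Helper38.RS Filter Topology

section

variable {k : Type} [NormedField k] {M : Type} [Field M]

theorem L_one (L : IwasawaLog 2 k) : L.toFun 1 = 0 := by
  have h := L.map_mul 1 1
  rw [mul_one] at h
  exact left_eq_add.1 h

theorem L_inv (L : IwasawaLog 2 k) (u : kˣ) : L.toFun u⁻¹ = - L.toFun u := by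
  have h := L.map_mul u u⁻¹
  rw [mul_inv_cancel, L_one] at h
  exact (neg_eq_of_add_eq_zero_right h.symm).symm

/-- the vector of the logarithms of the conjugates of `x` -/
noncomputable def ell (L : IwasawaLog 2 k) (T : Set (M →+* k)) : Additive Mˣ →+ (T → k) :=
  AddMonoidHom.mk' (fun x τ => L.toFun (Units.map (τ.1 : M →* k) x.toMul))
    (fun x y => funext fun τ => by
      simp only [toMul_add, map_mul, L.map_mul, Pi.add_apply])

theorem ell_apply (L : IwasawaLog 2 k) (T : Set (M →+* k)) (x : Mˣ) (τ : T) :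
    ell L T (Additive.ofMul x) τ = L.toFun (Units.map (τ.1 : M →* k) x) := rfl

/-- the conjugates of `b` -/
def vec (T : Set (M →+* k)) (b : M) : T → k := fun τ => τ.1 b

theorem vec_add (T : Set (M →+* k)) (a b : M) : vec T (a + b) = vec T a + vec T b :=
  funext fun τ => map_add τ.1 a b

/-- the units at the places of `T` -/
def XX (T : Set (M →+* k)) : Subgroup Mˣ where
  carrier := {x | ∀ τ ∈ T, ‖τ (x : M)‖ = 1}
  mul_mem' := fun {a b} ha hb τ hτ => by
    rw [Units.val_mul, map_mul, norm_mul, ha τ hτ, hb τ hτ, one_mul]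
  one_mem' := fun τ _ => by simp
  inv_mem' := fun {a} ha τ hτ => by
    rw [Units.val_inv_eq_inv_val, map_inv₀, norm_inv, ha τ hτ, inv_one]

/-- the units which are congruent to `1` modulo `4` -/
def X1 [IsUltrametricDist k] (T : Set (M →+* k)) : Subgroup Mˣ where
  carrier := {x | ∀ τ ∈ T, ‖τ (x : M)‖ = 1 ∧ ‖τ (x : M) - 1‖ ≤ 1 / 4}
  mul_mem' := fun {a b} ha hb τ hτ => by
    refine ⟨?_, ?_⟩
    · rw [Units.val_mul, map_mul, norm_mul, (ha τ hτ).1, (hb τ hτ).1, one_mul]
    · have h : τ ((a * b : Mˣ) : M) - 1 = τ (a : M) * (τ (b : M) - 1) + (τ (a : M) - 1) := by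
        rw [Units.val_mul, map_mul]; ring
      rw [h]
      refine (IsUltrametricDist.norm_add_le_max _ _).trans (max_le ?_ (ha τ hτ).2)
      rw [norm_mul, (ha τ hτ).1, one_mul]
      exact (hb τ hτ).2
  one_mem' := fun τ _ => by simp
  inv_mem' := fun {a} ha τ hτ => by
    refine ⟨?_, ?_⟩
    · rw [Units.val_inv_eq_inv_val, map_inv₀, norm_inv, (ha τ hτ).1, inv_one]
    · have hne : τ (a : M) ≠ 0 := by
        intro h0
        have := (ha τ hτ).1
        rw [h0, norm_zero] at this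
        exact zero_ne_one this
      have h : τ ((a⁻¹ : Mˣ) : M) - 1 = (τ (a : M))⁻¹ * (- (τ (a : M) - 1)) := by
        rw [Units.val_inv_eq_inv_val, map_inv₀]
        field_simp
        ring
      rw [h, norm_mul, norm_inv, (ha τ hτ).1, inv_one, one_mul, norm_neg]
      exact (ha τ hτ).2

end

section W

variable {k : Type} [NormedField k] [NormedAlgebra ℚ_[2] k] {M : Type} [Field M] [NumberField M]

/-- the `ℚ_2`-span of the vectors of conjugates -/
noncomputable def WW (T : Set (M →+* k)) : Submodule ℚ_[2] (T → k) := Submodule.span ℚ_[2] (Set.range (vec T))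

theorem WW_fd (T : Set (M →+* k)) : FiniteDimensional ℚ_[2] (WW T) := by
  have : CharZero k := charZero_of_injective_algebraMap (algebraMap ℚ_[2] k).injective
  set b := Module.finBasis ℚ M with hb
  have h1 : WW T ≤ Submodule.span ℚ_[2] (Set.range (fun i => vec T (b i))) := by
    rw [WW, Submodule.span_le]
    rintro _ ⟨x, rfl⟩
    have h2 : vec T x = ∑ i, ((b.repr x i : ℚ) : ℚ_[2]) • vec T (b i) := by
      funext τ
      have h3 : x = ∑ i, b.repr x i • b i := (b.sum_repr x).symm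
      rw [Finset.sum_apply]
      conv_lhs => rw [h3]
      rw [vec, map_sum]
      refine Finset.sum_congr rfl fun i _ => ?_
      rw [Pi.smul_apply, Algebra.smul_def, Algebra.smul_def, map_mul, vec]
      congr 1
      rw [map_ratCast, eq_ratCast, map_ratCast]
    rw [h2]
    exact Submodule.sum_mem _ fun i _ => Submodule.smul_mem _ _ (Submodule.subset_span ⟨i, rfl⟩)
  have h2 : FiniteDimensional ℚ_[2] (Submodule.span ℚ_[2] (Set.range (fun i => vec T (b i)))) :=
    FiniteDimensional.span_of_finite ℚ_[2] (Set.finite_range _)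
  exact Submodule.finiteDimensional_of_le h1

variable [IsUltrametricDist k]

theorem vec_norm_le (T : Set (M →+* k)) [Fintype T] (x : Mˣ) (hx : x ∈ XX T) : ‖vec T (x : M)‖ ≤ 1 := by
  rw [pi_norm_le_iff_of_nonneg zero_le_one]
  intro τ
  exact (hx τ.1 τ.2).le

/-- a common exponent -/
theorem exists_q (T : Set (M →+* k)) [Fintype T] :
    ∃ q : ℕ, 0 < q ∧ ∀ x ∈ XX T, x ^ q ∈ X1 T := by
  classical
  have := WW_fd T
  have : ProperSpace (WW T) := FiniteDimensional.proper ℚ_[2] (WW T)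
  have htb := (isCompact_closedBall (0 : WW T) 1).totallyBounded
  rw [Metric.totallyBounded_iff] at htb
  obtain ⟨t, ht, hcov⟩ := htb (1 / 8) (by norm_num)
  let w : Mˣ → WW T := fun x => ⟨vec T (x : M), Submodule.subset_span ⟨_, rfl⟩⟩
  have hc : ∀ x : XX T, ∃ y : t, w x ∈ Metric.ball (y : WW T) (1 / 8) := by
    intro x
    have h1 : w x ∈ Metric.closedBall (0 : WW T) 1 := by
      rw [mem_closedBall_zero_iff]
      exact vec_norm_le T x x.2
    have h2 := hcov h1
    simp only [Set.mem_iUnion] at h2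
    obtain ⟨y, hy, hyw⟩ := h2
    exact ⟨⟨y, hy⟩, hyw⟩
  choose c hc using hc
  have hclose : ∀ x y : XX T, c x = c y → (x : Mˣ)⁻¹ * (y : Mˣ) ∈ X1 T := by
    intro x y hxy τ hτ
    have h1 : dist (w x) (w y) < 1 / 4 := by
      have h2 := hc x
      have h3 := hc y
      rw [← hxy] at h3
      rw [Metric.mem_ball] at h2 h3
      calc dist (w x) (w y) ≤ dist (w x) (c x : WW T) + dist (w y) (c x : WW T) :=
            dist_triangle_right _ _ _
        _ < 1 / 8 + 1 / 8 := add_lt_add h2 h3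
        _ = 1 / 4 := by norm_num
    have h4 : ‖τ ((x : Mˣ) : M) - τ ((y : Mˣ) : M)‖ < 1 / 4 := by
      have h5 : ‖(vec T ((x : Mˣ) : M) - vec T ((y : Mˣ) : M)) ⟨τ, hτ⟩‖ ≤
          ‖vec T ((x : Mˣ) : M) - vec T ((y : Mˣ) : M)‖ := norm_le_pi_norm _ _
      refine lt_of_le_of_lt h5 ?_
      rw [Subtype.dist_eq, dist_eq_norm] at h1
      exact h1
    have hx1 : ‖τ ((x : Mˣ) : M)‖ = 1 := x.2 τ hτ
    have hy1 : ‖τ ((y : Mˣ) : M)‖ = 1 := y.2 τ hτ
    have hne : τ ((x : Mˣ) : M) ≠ 0 := by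
      intro h0
      rw [h0, norm_zero] at hx1
      exact zero_ne_one hx1
    refine ⟨?_, ?_⟩
    · rw [Units.val_mul, Units.val_inv_eq_inv_val, map_mul, map_inv₀, norm_mul, norm_inv, hx1,
        hy1]
      norm_num
    · have h : τ (((x : Mˣ)⁻¹ * (y : Mˣ) : Mˣ) : M) - 1 =
          (τ ((x : Mˣ) : M))⁻¹ * (- (τ ((x : Mˣ) : M) - τ ((y : Mˣ) : M))) := by
        rw [Units.val_mul, Units.val_inv_eq_inv_val, map_mul, map_inv₀]
        field_simp
        ring
      rw [h, norm_mul, norm_inv, hx1, inv_one, one_mul, norm_neg]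
      exact h4.le
  have : Finite t := ht
  have hfin : Finite ((XX T) ⧸ (X1 T).subgroupOf (XX T)) := by
    refine Finite.of_injective (fun a => c (Quotient.out a)) fun a b hab => ?_
    have h1 := hclose _ _ hab
    have h2 : (QuotientGroup.mk (Quotient.out a) : (XX T) ⧸ (X1 T).subgroupOf (XX T)) =
        QuotientGroup.mk (Quotient.out b) := by
      rw [QuotientGroup.eq, Subgroup.mem_subgroupOf]
      exact h1
    have h3 : ∀ z : (XX T) ⧸ (X1 T).subgroupOf (XX T), QuotientGroup.mk (Quotient.out z) = z :=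
      fun z => Quotient.out_eq' z
    rw [h3, h3] at h2
    exact h2
  refine ⟨((X1 T).subgroupOf (XX T)).index, Nat.pos_of_ne_zero Subgroup.index_ne_zero_of_finite,
    fun x hx => ?_⟩
  have h1 := Subgroup.pow_index_mem ((X1 T).subgroupOf (XX T)) ⟨x, hx⟩
  rw [Subgroup.mem_subgroupOf] at h1
  exact h1

theorem ell_X1 (L : IwasawaLog 2 k) (T : Set (M →+* k)) [Fintype T] (x : Mˣ) (hx : x ∈ X1 T) :
    ell L T (Additive.ofMul x) ∈ WW T ∧ ‖ell L T (Additive.ofMul x)‖ ≤ 1 := by
  have := WW_fd T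
  refine ⟨?_, ?_⟩
  · have hcl : IsClosed (WW T : Set (T → k)) := Submodule.closed_of_finiteDimensional _
    have hlim : Tendsto (fun n => vec T (∑ i ∈ Finset.range n,
        (-1 : M) ^ i * ((x : M) - 1) ^ (i + 1) / (i + 1))) atTop
        (𝓝 (ell L T (Additive.ofMul x))) := by
      rw [tendsto_pi_nhds]
      intro τ
      have h1 := (L.hasSum (Units.map (τ.1 : M →* k) x) (by
        have := (hx τ.1 τ.2).2
        refine lt_of_le_of_lt this (by norm_num))).tendsto_sum_nat
      rw [ell_apply]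
      refine h1.congr fun n => ?_
      rw [vec, map_sum]
      refine Finset.sum_congr rfl fun i _ => ?_
      simp
    refine hcl.mem_of_tendsto hlim (Eventually.of_forall fun n => ?_)
    exact Submodule.subset_span ⟨_, rfl⟩
  · rw [pi_norm_le_iff_of_nonneg zero_le_one]
    intro τ
    rw [ell_apply]
    have h1 : ‖((Units.map (τ.1 : M →* k) x : kˣ) : k) - 1‖ ≤ 1 / 4 := (hx τ.1 τ.2).2
    exact (log_le L _ h1).trans (h1.trans (by norm_num))

theorem ell_XX (L : IwasawaLog 2 k) (T : Set (M →+* k)) [Fintype T] :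
    ∃ C : ℝ, ∀ x ∈ XX T, ell L T (Additive.ofMul x) ∈ WW T ∧ ‖ell L T (Additive.ofMul x)‖ ≤ C := by
  obtain ⟨q, hq, h⟩ := exists_q T
  have hq0 : ((q : ℕ) : ℚ_[2]) ≠ 0 := by exact_mod_cast hq.ne'
  refine ⟨‖((q : ℕ) : ℚ_[2])⁻¹‖, fun x hx => ?_⟩
  have h1 := ell_X1 L T (x ^ q) (h x hx)
  have h2 : ell L T (Additive.ofMul x) = ((q : ℕ) : ℚ_[2])⁻¹ • ell L T (Additive.ofMul (x ^ q)) := by
    rw [ofMul_pow, map_nsmul, ← Nat.cast_smul_eq_nsmul ℚ_[2], smul_smul, inv_mul_cancel₀ hq0,
      one_smul]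
  rw [h2]
  refine ⟨Submodule.smul_mem _ _ h1.1, ?_⟩
  rw [norm_smul]
  calc ‖((q : ℕ) : ℚ_[2])⁻¹‖ * ‖ell L T (Additive.ofMul (x ^ q))‖
      ≤ ‖((q : ℕ) : ℚ_[2])⁻¹‖ * 1 := by gcongr; exact h1.2
    _ = _ := mul_one _

end W

end Pool.Agent.Helper48.RS
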