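import Pool.Agent.Helper48.RS.SIG2

set_option autoImplicit false

namespace Pool.Agent.Helper48.RS

open NumberField Polynomial Module IsDedekindDomain Pool.Agent.Helper51.SigLeo
  Pool.Agent.Helper38.RS Filter Topology

section Z

variable {k : Type} [NormedField k] [NormedAlgebra ℚ_[2] k] {M : Type} [Field M]

/-- the `ℤ_2`-module structure -/
noncomputable abbrev zmod2 (T : Set (M →+* k)) : Module ℤ_[2] (T → k) :=
  Module.compHom (T → k) (algebraMap ℤ_[2] ℚ_[2])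

attribute [local instance] zmod2

theorem zsmul_def (T : Set (M →+* k)) (c : ℤ_[2]) (f : T → k) : c • f = (c : ℚ_[2]) • f := rfl

theorem norm_zsmul' (T : Set (M →+* k)) [Fintype T] (c : ℤ_[2]) (f : T → k) :
    ‖c • f‖ = ‖c‖ * ‖f‖ := by
  rw [zsmul_def, norm_smul]
  rfl

theorem nat_zsmul (T : Set (M →+* k)) (n : ℕ) (f : T → k) : ((n : ℤ_[2])) • f = n • f := by
  rw [zsmul_def, PadicInt.coe_natCast, Nat.cast_smul_eq_nsmul]

/-- a bounded subset of a finite dimensional `ℚ_2`-space generates a finitely generated module -/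
theorem fg_of_bounded (T : Set (M →+* k)) [Fintype T] (W : Submodule ℚ_[2] (T → k))
    [FiniteDimensional ℚ_[2] W] (S : Set (T → k)) (C : ℝ) (hS : ∀ s ∈ S, s ∈ W ∧ ‖s‖ ≤ C) :
    (Submodule.span ℤ_[2] S).FG := by
  classical
  let b := Module.finBasis ℚ_[2] W
  let r : W →L[ℚ_[2]] (Fin (finrank ℚ_[2] W) → ℚ_[2]) :=
    LinearMap.toContinuousLinearMap (b.equivFun : W →ₗ[ℚ_[2]] (Fin (finrank ℚ_[2] W) → ℚ_[2]))
  obtain ⟨N, hN⟩ := pow_unbounded_of_one_lt (‖r‖ * |C|) (one_lt_two)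
  have hfg : (Submodule.span ℤ_[2] (Set.range (fun i => (((2 : ℚ_[2]) ^ N)⁻¹) • ((b i : W) : T → k)))).FG :=
    Submodule.fg_span (Set.finite_range _)
  have hle : Submodule.span ℤ_[2] S ≤
      Submodule.span ℤ_[2] (Set.range (fun i => (((2 : ℚ_[2]) ^ N)⁻¹) • ((b i : W) : T → k))) := by
    rw [Submodule.span_le]
    intro s hs
    obtain ⟨hsW, hsC⟩ := hS s hs
    have h2N : (2 : ℚ_[2]) ^ N ≠ 0 := pow_ne_zero _ two_ne_zero
    have hnorm : ∀ i, ‖(2 : ℚ_[2]) ^ N * r ⟨s, hsW⟩ i‖ ≤ 1 := by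
      intro i
      have h1 : ‖r ⟨s, hsW⟩ i‖ ≤ ‖r‖ * |C| := by
        refine (norm_le_pi_norm _ i).trans ((r.le_opNorm _).trans ?_)
        have h2 : ‖(⟨s, hsW⟩ : W)‖ ≤ |C| := hsC.trans (le_abs_self C)
        gcongr
      have h3 : ‖(2 : ℚ_[2]) ^ N‖ = (1 / 2 : ℝ) ^ N := norm_pow_two N
      rw [norm_mul, h3]
      calc (1 / 2 : ℝ) ^ N * ‖r ⟨s, hsW⟩ i‖ ≤ (1 / 2 : ℝ) ^ N * 2 ^ N := by
            gcongr
            exact h1.trans hN.le
        _ = 1 := by rw [← mul_pow]; norm_num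
    let z : Fin (finrank ℚ_[2] W) → ℤ_[2] := fun i => ⟨(2 : ℚ_[2]) ^ N * r ⟨s, hsW⟩ i, hnorm i⟩
    have hsum : s = ∑ i, z i • ((((2 : ℚ_[2]) ^ N)⁻¹) • ((b i : W) : T → k)) := by
      have h1 : (⟨s, hsW⟩ : W) = ∑ i, r ⟨s, hsW⟩ i • b i := (b.sum_equivFun ⟨s, hsW⟩).symm
      have h2 := congrArg (fun w : W => (w : T → k)) h1
      simp only [Submodule.coe_sum, Submodule.coe_smul] at h2
      rw [h2]
      refine Finset.sum_congr rfl fun i _ => ?_
      rw [zsmul_def, smul_smul]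
      congr 1
      change r ⟨s, hsW⟩ i = (2 : ℚ_[2]) ^ N * r ⟨s, hsW⟩ i * ((2 : ℚ_[2]) ^ N)⁻¹
      field_simp
    rw [hsum]
    exact Submodule.sum_mem _ fun i _ => Submodule.smul_mem _ _ (Submodule.subset_span ⟨i, rfl⟩)
  have : IsNoetherian ℤ_[2]
      (Submodule.span ℤ_[2] (Set.range (fun i => (((2 : ℚ_[2]) ^ N)⁻¹) • ((b i : W) : T → k)))) :=
    isNoetherian_of_fg_of_noetherian _ hfg
  exact Submodule.FG.of_le_of_isNoetherian hle

/-- the double of a finitely generated submodule is closed -/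
theorem closed_two (T : Set (M →+* k)) [Fintype T] (Λ : Submodule ℤ_[2] (T → k)) (hΛ : Λ.FG) :
    IsClosed {f : T → k | ∃ w ∈ Λ, f = (2 : ℤ_[2]) • w} := by
  obtain ⟨n, g, hg⟩ := Submodule.fg_iff_exists_fin_generating_family.1 hΛ
  let Ψ : (Fin n → ℤ_[2]) → (T → k) := fun a => (2 : ℤ_[2]) • ∑ i, a i • g i
  have hcont : Continuous Ψ := by
    have hco : Continuous (fun x : ℤ_[2] => (x : ℚ_[2])) := continuous_subtype_val
    have h1 : Continuous fun a : Fin n → ℤ_[2] => ∑ i, a i • g i := by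
      refine continuous_finsetSum _ fun i _ => ?_
      have h2 : Continuous fun a : Fin n → ℤ_[2] => ((a i : ℤ_[2]) : ℚ_[2]) • g i :=
        (hco.comp (continuous_apply i)).smul continuous_const
      exact h2
    have h3 : Continuous fun f : T → k => ((2 : ℤ_[2]) : ℚ_[2]) • f := continuous_const_smul _
    exact h3.comp h1
  have hrange : {f : T → k | ∃ w ∈ Λ, f = (2 : ℤ_[2]) • w} = Set.range Ψ := by
    ext f
    constructor
    · rintro ⟨w, hw, rfl⟩
      rw [← hg, Submodule.mem_span_range_iff_exists_fun] at hw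
      obtain ⟨c, hc⟩ := hw
      exact ⟨c, by simp only [Ψ, hc]⟩
    · rintro ⟨a, rfl⟩
      refine ⟨_, ?_, rfl⟩
      rw [← hg]
      exact Submodule.sum_mem _ fun i _ => Submodule.smul_mem _ _ (Submodule.subset_span ⟨i, rfl⟩)
  rw [hrange]
  exact (isCompact_range hcont).isClosed

variable (L : IwasawaLog 2 k)

/-- the lattice of the logarithms -/
noncomputable def Lam (T : Set (M →+* k)) : Submodule ℤ_[2] (T → k) :=
  Submodule.span ℤ_[2] ((fun x : Mˣ => ell L T (Additive.ofMul x)) '' (XX T : Set Mˣ))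

theorem ell_mem_Lam (T : Set (M →+* k)) (x : Mˣ) (hx : x ∈ XX T) :
    ell L T (Additive.ofMul x) ∈ Lam L T := Submodule.subset_span ⟨x, hx, rfl⟩

/-- the logarithms are dense in the lattice -/
theorem dense_Lam (T : Set (M →+* k)) [Fintype T] (w : T → k) (hw : w ∈ Lam L T) :
    ∀ ε : ℝ, 0 < ε → ∃ z ∈ XX T, ‖w - ell L T (Additive.ofMul z)‖ ≤ ε := by
  refine Submodule.span_induction (p := fun w _ => ∀ ε : ℝ, 0 < ε →
    ∃ z ∈ XX T, ‖w - ell L T (Additive.ofMul z)‖ ≤ ε) ?_ ?_ ?_ ?_ hw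
  · rintro _ ⟨x, hx, rfl⟩ ε hε
    exact ⟨x, hx, by simp [hε.le]⟩
  · intro ε hε
    exact ⟨1, (XX T).one_mem, by simp [hε.le]⟩
  · intro x y _ _ h1 h2 ε hε
    obtain ⟨z, hz, hz'⟩ := h1 (ε / 2) (by positivity)
    obtain ⟨u, hu, hu'⟩ := h2 (ε / 2) (by positivity)
    refine ⟨z * u, (XX T).mul_mem hz hu, ?_⟩
    rw [ofMul_mul, map_add]
    have h : x + y - (ell L T (Additive.ofMul z) + ell L T (Additive.ofMul u)) =
      (x - ell L T (Additive.ofMul z)) + (y - ell L T (Additive.ofMul u)) := by abel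
    rw [h]
    calc _ ≤ ‖x - ell L T (Additive.ofMul z)‖ + ‖y - ell L T (Additive.ofMul u)‖ := norm_add_le _ _
      _ ≤ ε / 2 + ε / 2 := add_le_add hz' hu'
      _ = ε := by ring
  · intro c x _ h1 ε hε
    obtain ⟨z, hz, hz'⟩ := h1 (ε / 2) (by positivity)
    obtain ⟨n, hn⟩ := PadicInt.denseRange_natCast.exists_dist_lt c
      (show 0 < ε / (2 * (‖x‖ + 1)) by positivity)
    refine ⟨z ^ n, (XX T).pow_mem hz n, ?_⟩
    rw [ofMul_pow, map_nsmul, ← nat_zsmul]
    have h : c • x - (n : ℤ_[2]) • ell L T (Additive.ofMul z) =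
      (c - (n : ℤ_[2])) • x + (n : ℤ_[2]) • (x - ell L T (Additive.ofMul z)) := by
      rw [sub_smul, smul_sub]; abel
    rw [h]
    rw [dist_eq_norm] at hn
    calc _ ≤ ‖(c - (n : ℤ_[2])) • x‖ + ‖(n : ℤ_[2]) • (x - ell L T (Additive.ofMul z))‖ :=
          norm_add_le _ _
      _ ≤ ε / 2 + ε / 2 := by
          refine add_le_add ?_ ?_
          · rw [norm_zsmul']
            have h3 : ‖c - (n : ℤ_[2])‖ * (2 * (‖x‖ + 1)) ≤ ε := by
              rw [← le_div_iff₀ (by positivity)]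
              exact hn.le
            have h4 := norm_nonneg x
            have h5 := norm_nonneg (c - (n : ℤ_[2]))
            nlinarith
          · rw [norm_zsmul']
            have h6 : ‖(n : ℤ_[2])‖ ≤ 1 := PadicInt.norm_le_one _
            have h7 := norm_nonneg (x - ell L T (Additive.ofMul z))
            nlinarith
      _ = ε := by ring

/-- modulo `2` the lattice consists of logarithms -/
theorem mod_two_Lam (T : Set (M →+* k)) (w : T → k) (hw : w ∈ Lam L T) :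
    ∃ z ∈ XX T, ∃ w' ∈ Lam L T, w = ell L T (Additive.ofMul z) + (2 : ℤ_[2]) • w' := by
  refine Submodule.span_induction (p := fun w _ => ∃ z ∈ XX T, ∃ w' ∈ Lam L T,
    w = ell L T (Additive.ofMul z) + (2 : ℤ_[2]) • w') ?_ ?_ ?_ ?_ hw
  · rintro _ ⟨x, hx, rfl⟩
    exact ⟨x, hx, 0, Submodule.zero_mem _, by simp⟩
  · exact ⟨1, (XX T).one_mem, 0, Submodule.zero_mem _, by simp⟩
  · rintro x y _ _ ⟨z, hz, w1, hw1, rfl⟩ ⟨u, hu, w2, hw2, rfl⟩
    refine ⟨z * u, (XX T).mul_mem hz hu, w1 + w2, Submodule.add_mem _ hw1 hw2, ?_⟩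
    rw [ofMul_mul, map_add, smul_add]
    abel
  · rintro c x _ ⟨z, hz, w1, hw1, rfl⟩
    obtain ⟨n, hn⟩ := PadicInt.denseRange_natCast.exists_dist_lt c (show (0 : ℝ) < 1 from one_pos)
    rw [dist_eq_norm, PadicInt.norm_lt_one_iff_dvd] at hn
    obtain ⟨e, he⟩ := hn
    have hc : c = (n : ℤ_[2]) + (2 : ℤ_[2]) * e := by
      have h2 : ((2 : ℕ) : ℤ_[2]) = 2 := by norm_num
      rw [h2] at he
      rw [← he]; ring
    refine ⟨z ^ n, (XX T).pow_mem hz n, e • ell L T (Additive.ofMul z) + c • w1,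
      Submodule.add_mem _ (Submodule.smul_mem _ _ (ell_mem_Lam L T z hz))
        (Submodule.smul_mem _ _ hw1), ?_⟩
    rw [ofMul_pow, map_nsmul, ← nat_zsmul, smul_add, smul_add]
    conv_lhs => rw [hc]
    rw [add_smul, mul_smul, ← hc, smul_comm c (2 : ℤ_[2]) w1]
    abel

end Z

end Pool.Agent.Helper48.RS
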