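import Pool.Agent.Helper48.RS.SIG3

set_option autoImplicit false

namespace Pool.Agent.Helper48.RS

open NumberField Polynomial Module IsDedekindDomain Pool.Agent.Helper51.SigLeo
  Pool.Agent.Helper38.RS Filter Topology

attribute [local instance] zmod2

section span

variable {k : Type} [NormedField k] [NormedAlgebra ℚ_[2] k] [IsUltrametricDist k]
  {M : Type} [Field M]

theorem phi_bound (T : Set (M →+* k)) [Fintype T] (φ : (T → k) →ₗ[k] k) :
    ∃ C : ℝ, 0 ≤ C ∧ ∀ f, ‖φ f‖ ≤ C * ‖f‖ := by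
  classical
  refine ⟨∑ τ, ‖φ (fun j => if τ = j then 1 else 0)‖, Finset.sum_nonneg fun _ _ => norm_nonneg _,
    fun f => ?_⟩
  rw [LinearMap.pi_apply_eq_sum_univ φ f, Finset.sum_mul]
  refine (norm_sum_le _ _).trans (Finset.sum_le_sum fun τ _ => ?_)
  rw [smul_eq_mul, norm_mul, mul_comm]
  gcongr
  exact norm_le_pi_norm f τ

theorem span_ell (L : IwasawaLog 2 k) (T : Set (M →+* k)) [Fintype T] :
    Submodule.span k ((fun x : Mˣ => ell L T (Additive.ofMul x)) '' (XX T : Set Mˣ)) = ⊤ := by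
  classical
  by_contra hU
  obtain ⟨φ, hφ0, hφ⟩ := Submodule.exists_le_ker_of_lt_top _ (lt_top_iff_ne_top.2 hU)
  obtain ⟨C, hC0, hC⟩ := phi_bound T φ
  let c : T → k := fun τ => φ (fun j => if τ = j then 1 else 0)
  have hφc : ∀ f, φ f = ∑ τ, f τ * c τ := fun f => by
    rw [LinearMap.pi_apply_eq_sum_univ φ f]
    rfl
  have hne : ∃ τ, c τ ≠ 0 := by
    by_contra hcon
    push Not at hcon
    apply hφ0
    ext f
    simp [hφc, hcon]
  obtain ⟨τ₀, hτ₀⟩ := hne
  have hvec : ∀ b : M, φ (vec T b) = 0 := by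
    intro b
    set B : ℝ := ‖vec T b‖ with hB
    have hB0 : 0 ≤ B := norm_nonneg _
    have hBτ : ∀ τ : T, ‖τ.1 b‖ ≤ B := fun τ => norm_le_pi_norm (vec T b) τ
    obtain ⟨n₀, hn₀⟩ := pow_unbounded_of_one_lt (4 * B) (one_lt_two)
    have hkey : ∀ n, n₀ ≤ n → ‖φ (vec T b)‖ ≤ (2 * C * B ^ 2) * (1 / 2 : ℝ) ^ n := by
      intro n hn
      have h2n : (0 : ℝ) < (1 / 2 : ℝ) ^ n := by positivity
      have hpow : (4 * B) * (1 / 2 : ℝ) ^ n ≤ 1 := by
        have h1 : (2 : ℝ) ^ n₀ ≤ 2 ^ n := pow_le_pow_right₀ one_le_two hn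
        calc (4 * B) * (1 / 2 : ℝ) ^ n ≤ 2 ^ n * (1 / 2 : ℝ) ^ n := by
              gcongr; exact hn₀.le.trans h1
          _ = 1 := by rw [← mul_pow]; norm_num
      have hsmall : ∀ τ : T, ‖(τ.1 (1 + 2 ^ n * b) : k) - 1‖ ≤ (1 / 2 : ℝ) ^ n * B := by
        intro τ
        have h1 : (τ.1 (1 + 2 ^ n * b) : k) - 1 = (2 : k) ^ n * τ.1 b := by
          rw [map_add, map_one, map_mul, map_pow, map_ofNat]; ring
        rw [h1, norm_mul, norm_pow_two]
        gcongr
        exact hBτ τ
      have hsmall' : ∀ τ : T, ‖(τ.1 (1 + 2 ^ n * b) : k) - 1‖ ≤ 1 / 4 := fun τ =>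
        (hsmall τ).trans (by nlinarith)
      have hone : ∀ τ : T, ‖(τ.1 (1 + 2 ^ n * b) : k)‖ = 1 := by
        intro τ
        have h1 : (τ.1 (1 + 2 ^ n * b) : k) = ((τ.1 (1 + 2 ^ n * b) : k) - 1) + 1 := by ring
        rw [h1, IsUltrametricDist.norm_add_eq_max_of_norm_ne_norm]
        · rw [norm_one]
          refine max_eq_right ((hsmall' τ).trans (by norm_num))
        · rw [norm_one]
          have := hsmall' τ
          intro h
          rw [h] at this
          norm_num at this
      have hu0 : (1 + 2 ^ n * b : M) ≠ 0 := by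
        intro h0
        have := hone τ₀
        rw [h0, map_zero, norm_zero] at this
        exact zero_ne_one this
      let u : Mˣ := Units.mk0 _ hu0
      have huX : u ∈ XX T := fun τ hτ => hone ⟨τ, hτ⟩
      have h0 : φ (ell L T (Additive.ofMul u)) = 0 := by
        have h1 := hφ (Submodule.subset_span ⟨u, huX, rfl⟩)
        exact h1
      have hdiff : ‖ell L T (Additive.ofMul u) - (2 : k) ^ n • vec T b‖ ≤
          2 * ((1 / 2 : ℝ) ^ n * B) ^ 2 := by
        rw [pi_norm_le_iff_of_nonneg (by positivity)]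
        intro τ
        rw [Pi.sub_apply, Pi.smul_apply, smul_eq_mul, ell_apply]
        have h1 : ((Units.map (τ.1 : M →* k) u : kˣ) : k) = τ.1 (1 + 2 ^ n * b) := rfl
        have h2 := log_est L (Units.map (τ.1 : M →* k) u) (by rw [h1]; exact hsmall' τ)
        rw [h1] at h2
        have h3 : (τ.1 (1 + 2 ^ n * b) : k) - 1 = (2 : k) ^ n * vec T b τ := by
          rw [map_add, map_one, map_mul, map_pow, map_ofNat, vec]; ring
        rw [← h3]
        refine h2.trans ?_
        have h4 := hsmall τ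
        have h5 := norm_nonneg ((τ.1 (1 + 2 ^ n * b) : k) - 1)
        gcongr
      have h1 : ‖φ ((2 : k) ^ n • vec T b)‖ ≤ C * (2 * ((1 / 2 : ℝ) ^ n * B) ^ 2) := by
        have h2 : φ ((2 : k) ^ n • vec T b) =
            - φ (ell L T (Additive.ofMul u) - (2 : k) ^ n • vec T b) := by
          rw [map_sub, h0, zero_sub, neg_neg]
        rw [h2, norm_neg]
        refine (hC _).trans ?_
        gcongr
      rw [map_smul, norm_smul, norm_pow_two] at h1
      have h3 : (1 / 2 : ℝ) ^ n * ‖φ (vec T b)‖ ≤ (1 / 2 : ℝ) ^ n *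
          ((2 * C * B ^ 2) * (1 / 2 : ℝ) ^ n) := by
        refine h1.trans (le_of_eq ?_)
        ring
      exact le_of_mul_le_mul_left h3 h2n
    have hlim : Tendsto (fun n : ℕ => (2 * C * B ^ 2) * (1 / 2 : ℝ) ^ n) atTop (𝓝 0) := by
      have := (tendsto_pow_atTop_nhds_zero_of_lt_one (r := (1 / 2 : ℝ)) (by norm_num)
        (by norm_num)).const_mul (2 * C * B ^ 2)
      simpa using this
    have h2 : ‖φ (vec T b)‖ ≤ 0 :=
      ge_of_tendsto hlim (eventually_atTop.2 ⟨n₀, hkey⟩)
    exact norm_le_zero_iff.1 h2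
  -- independence of the characters
  have hinj : Function.Injective (fun τ : T => ((τ.1 : M →* k))) := by
    intro a b hab
    apply Subtype.ext
    ext x
    exact DFunLike.congr_fun hab x
  have hli := (linearIndependent_monoidHom M k).comp (fun τ : T => ((τ.1 : M →* k))) hinj
  rw [Fintype.linearIndependent_iff] at hli
  apply hτ₀
  refine hli c ?_ τ₀
  funext b
  have h1 := hvec b
  rw [hφc] at h1
  rw [Finset.sum_apply, Pi.zero_apply, ← h1]
  refine Finset.sum_congr rfl fun τ _ => ?_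
  simp [vec, mul_comm]

end span

section loc

variable {k : Type} [NormedField k] [NormedAlgebra ℚ_[2] k]
  {M : Type} [Field M]

theorem locSig_of (L : IwasawaLog 2 k) (T : Set (M →+* k)) [Fintype T] (x : Mˣ) (hx : x ∈ XX T)
    (w : T → k) (hw : w ∈ Lam L T) (h : ell L T (Additive.ofMul x) = (2 : ℤ_[2]) • w) :
    LocSig L T x := by
  intro N
  obtain ⟨z, hz, hzw⟩ := dense_Lam L T w hw ((1 / 2 : ℝ) ^ N) (by positivity)
  refine ⟨z⁻¹, fun τ hτ => ?_⟩
  have hmem : x * z⁻¹ ^ 2 ∈ XX T := (XX T).mul_mem hx ((XX T).pow_mem ((XX T).inv_mem hz) 2)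
  refine ⟨hmem τ hτ, ?_⟩
  have h1 : ell L T (Additive.ofMul (x * z⁻¹ ^ 2)) =
      (2 : ℤ_[2]) • (w - ell L T (Additive.ofMul z)) := by
    rw [ofMul_mul, ofMul_pow, ofMul_inv, map_add, map_nsmul, map_neg, h, smul_sub]
    have h2 : (2 : ℤ_[2]) • ell L T (Additive.ofMul z) = 2 • ell L T (Additive.ofMul z) :=
      nat_zsmul T 2 _
    rw [h2]
    abel
  have h2 : ‖ell L T (Additive.ofMul (x * z⁻¹ ^ 2))‖ ≤ (1 / 2 : ℝ) ^ N := by
    rw [h1, norm_zsmul']
    have h3 : ‖(2 : ℤ_[2])‖ ≤ 1 := PadicInt.norm_le_one _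
    calc ‖(2 : ℤ_[2])‖ * ‖w - ell L T (Additive.ofMul z)‖ ≤ 1 * (1 / 2 : ℝ) ^ N := by
          gcongr
      _ = _ := one_mul _
  exact (norm_le_pi_norm (ell L T (Additive.ofMul (x * z⁻¹ ^ 2))) ⟨τ, hτ⟩).trans h2

theorem of_locSig (L : IwasawaLog 2 k) (T : Set (M →+* k)) [Fintype T] (hfg : (Lam L T).FG)
    (x : Mˣ) (hx : x ∈ XX T) (h : LocSig L T x) :
    ∃ w ∈ Lam L T, ell L T (Additive.ofMul x) = (2 : ℤ_[2]) • w := by
  have hcl := closed_two T (Lam L T) hfg
  have hmem : ell L T (Additive.ofMul x) ∈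
      closure {f : T → k | ∃ w ∈ Lam L T, f = (2 : ℤ_[2]) • w} := by
    rw [Metric.mem_closure_iff]
    intro ε hε
    obtain ⟨N, hN⟩ := exists_pow_lt_of_lt_one hε (show (1 / 2 : ℝ) < 1 by norm_num)
    obtain ⟨y, hy⟩ := h N
    have hyX : y ∈ XX T := by
      intro τ hτ
      have h1 := (hy τ hτ).1
      rw [Units.val_mul, Units.val_pow_eq_pow_val, map_mul, map_pow, norm_mul, norm_pow,
        hx τ hτ, one_mul] at h1
      exact (pow_eq_one_iff_of_nonneg (norm_nonneg _) two_ne_zero).1 h1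
    refine ⟨(2 : ℤ_[2]) • ell L T (Additive.ofMul y⁻¹),
      ⟨_, ell_mem_Lam L T _ ((XX T).inv_mem hyX), rfl⟩, ?_⟩
    refine lt_of_le_of_lt ?_ hN
    rw [dist_eq_norm]
    have h2 : ell L T (Additive.ofMul x) - (2 : ℤ_[2]) • ell L T (Additive.ofMul y⁻¹) =
        ell L T (Additive.ofMul (x * y ^ 2)) := by
      have h3 : (2 : ℤ_[2]) • ell L T (Additive.ofMul y⁻¹) = 2 • ell L T (Additive.ofMul y⁻¹) :=
        nat_zsmul T 2 _
      rw [h3, ofMul_mul, ofMul_pow, ofMul_inv, map_add, map_nsmul, map_neg]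
      abel
    rw [h2, pi_norm_le_iff_of_nonneg (by positivity)]
    intro τ
    exact (hy τ.1 τ.2).2
  rw [hcl.closure_eq] at hmem
  exact hmem

end loc

section eig

variable {k : Type} [NormedField k] {K M : Type} [Field K] [Field M] [Algebra K M]

/-- composition with `δ` on the embeddings above `T` -/
def sh (T : Set (K →+* k)) (δ : M ≃ₐ[K] M) (τ : (above T : Set (M →+* k))) :
    (above T : Set (M →+* k)) :=
  ⟨τ.1.comp (δ : M →+* M), by
    have h : (τ.1.comp (δ : M →+* M)).comp (algebraMap K M) = τ.1.comp (algebraMap K M) := by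
      ext x
      simp
    have h2 : τ.1.comp (algebraMap K M) ∈ T := τ.2
    rw [← h] at h2
    exact h2⟩

/-- the operator induced by `δ` -/
def Dk (T : Set (K →+* k)) (δ : M ≃ₐ[K] M) :
    (↥(above T : Set (M →+* k)) → k) →ₗ[k] (↥(above T : Set (M →+* k)) → k) :=
  LinearMap.funLeft k k (sh T δ)

theorem finrank_eig [NormedAlgebra ℚ_[2] k] (hι : Nonempty (AlgebraicClosure ℚ →+* k))
    [NumberField K] [NumberField M] (T : Set (K →+* k)) (δ : M ≃ₐ[K] M) (m : ℕ)
    (hm : orderOf δ = m) (hm0 : 0 < m) (ζ : k) (hζ : ζ ^ m = 1) :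
    T.ncard ≤ finrank k (LinearMap.ker (Dk T δ - ζ • LinearMap.id)) := by
  classical
  have : CharZero k := charZero_of_injective_algebraMap (algebraMap ℚ_[2] k).injective
  have : Fintype T := Fintype.ofFinite T
  have : Fintype (above T : Set (M →+* k)) := Fintype.ofFinite _
  choose ext hext using fun σ : K →+* k => exists_ext hι K M σ
  let res : ↥(above T : Set (M →+* k)) → T := fun τ => ⟨τ.1.comp (algebraMap K M), τ.2⟩
  have hres : ∀ τ, res (sh T δ τ) = res τ := by
    intro τ
    apply Subtype.ext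
    ext x
    simp [res, sh]
  let G0 : (T → k) → (↥(above T : Set (M →+* k)) → k) := fun c τ => ∑ i ∈ Finset.range m,
        if τ.1 = (ext (res τ)).comp ((δ ^ i : M ≃ₐ[K] M) : M →+* M) then ζ ^ i * c (res τ) else 0
  let G : (T → k) →ₗ[k] (↥(above T : Set (M →+* k)) → k) :=
    { toFun := G0
      map_add' := fun c c' => by
        funext τ
        change G0 (c + c') τ = G0 c τ + G0 c' τ
        simp only [G0]
        rw [← Finset.sum_add_distrib]
        refine Finset.sum_congr rfl fun i _ => ?_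
        split_ifs
        · rw [Pi.add_apply]; ring
        · ring
      map_smul' := fun a c => by
        funext τ
        change G0 (a • c) τ = a * G0 c τ
        simp only [G0]
        rw [Finset.mul_sum]
        refine Finset.sum_congr rfl fun i _ => ?_
        split_ifs
        · rw [Pi.smul_apply, smul_eq_mul]; ring
        · ring }
  have hGapp : ∀ c τ, G c τ = ∑ i ∈ Finset.range m,
        if τ.1 = (ext (res τ)).comp ((δ ^ i : M ≃ₐ[K] M) : M →+* M) then ζ ^ i * c (res τ) else 0 :=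
    fun _ _ => rfl
  have hGker : ∀ c, G c ∈ LinearMap.ker (Dk T δ - ζ • LinearMap.id) := by
    intro c
    rw [LinearMap.mem_ker]
    funext τ
    rw [LinearMap.sub_apply, Pi.sub_apply, Pi.zero_apply, sub_eq_zero]
    change G c (sh T δ τ) = ζ * G c τ
    rw [hGapp, hGapp, hres]
    let g : ℕ → k := fun i =>
      if (sh T δ τ).1 = (ext (res τ)).comp ((δ ^ i : M ≃ₐ[K] M) : M →+* M) then
        ζ ^ i * c (res τ) else 0
    have hg0 : g m = g 0 := by
      have h1 : δ ^ m = 1 := by rw [← hm]; exact pow_orderOf_eq_one δ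
      simp only [g, h1, pow_zero, hζ]
    have hshift : ∑ i ∈ Finset.range m, g i = ∑ i ∈ Finset.range m, g (i + 1) := by
      have h1 := Finset.sum_range_succ g m
      have h2 := Finset.sum_range_succ' g m
      rw [h1, hg0] at h2
      exact add_right_cancel h2
    change ∑ i ∈ Finset.range m, g i = _
    rw [hshift, Finset.mul_sum]
    refine Finset.sum_congr rfl fun i _ => ?_
    have hiff : (sh T δ τ).1 = (ext (res τ)).comp ((δ ^ (i + 1) : M ≃ₐ[K] M) : M →+* M) ↔
        τ.1 = (ext (res τ)).comp ((δ ^ i : M ≃ₐ[K] M) : M →+* M) := by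
      constructor
      · intro h
        ext x
        have h1 := RingHom.congr_fun h (δ.symm x)
        have h2 : (δ ^ (i + 1)) (δ.symm x) = (δ ^ i) x := by
          rw [pow_succ, AlgEquiv.mul_apply, AlgEquiv.apply_symm_apply]
        simpa [sh, h2] using h1
      · intro h
        ext x
        have h1 := RingHom.congr_fun h (δ x)
        have h2 : (δ ^ (i + 1)) x = (δ ^ i) (δ x) := by
          rw [pow_succ, AlgEquiv.mul_apply]
        simpa [sh, h2] using h1
    simp only [g, hiff]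
    split_ifs
    · rw [pow_succ]; ring
    · ring
  let G' : (T → k) →ₗ[k] LinearMap.ker (Dk T δ - ζ • LinearMap.id) := G.codRestrict _ hGker
  have hG'inj : Function.Injective G' := by
    rw [← LinearMap.ker_eq_bot, LinearMap.ker_eq_bot']
    intro c hc
    have hc' : G c = 0 := congrArg Subtype.val hc
    funext σ
    let τ : (above T : Set (M →+* k)) := ⟨ext σ.1, by
      change (ext σ.1).comp (algebraMap K M) ∈ T
      rw [hext]; exact σ.2⟩
    have hrτ : res τ = σ := Subtype.ext (hext σ.1)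
    have h1 := congrFun hc' τ
    rw [hGapp, Finset.sum_eq_single 0] at h1
    · rw [if_pos, hrτ] at h1
      · simpa using h1
      · rw [hrτ]
        ext x
        simp [τ]
    · intro i hi hi0
      rw [if_neg]
      intro h
      rw [hrτ] at h
      have h2 : δ ^ i = 1 := by
        ext x
        have h3 := RingHom.congr_fun h x
        have h4 : (ext σ.1) x = (ext σ.1) ((δ ^ i) x) := h3
        exact ((ext σ.1).injective h4).symm
      have h5 := orderOf_dvd_of_pow_eq_one h2
      rw [hm] at h5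
      have h6 := Nat.le_of_dvd (Nat.pos_of_ne_zero hi0) h5
      rw [Finset.mem_range] at hi
      omega
    · intro h
      exact absurd (Finset.mem_range.2 hm0) h
  have h1 := LinearMap.finrank_le_finrank_of_injective hG'inj
  rw [Module.finrank_fintype_fun_eq_card] at h1
  rwa [← Nat.card_coe_set_eq, Nat.card_eq_fintype_card]

end eig

end Pool.Agent.Helper48.RS
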